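import Pool.Agent.helper34.NTA.Spec

/-!
# Project NTA, row EUL: Euler's formula for the arcs
-/

set_option autoImplicit false

namespace Pool.Agent.NTA

open Equiv

section

variable {H : Type} [Group H] {sg : H →* ℤˣ}

/-- the arc of a numbered point -/
def EUL_arc : (H × Fin 10) ⊕ (YY sg × Fin 2) → VV sg
  | Sum.inl p => Sum.inl p.1
  | Sum.inr p => Sum.inr p.1

/-- the number of a numbered point -/
def EUL_idx : (H × Fin 10) ⊕ (YY sg × Fin 2) → ℕ
  | Sum.inl p => p.2
  | Sum.inr p => p.2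

theorem EUL_lift (A : ArcFamily (VV sg)) (h1 : ∀ h, A.len (Sum.inl h) = 10) (h2 : ∀ y, A.len (Sum.inr y) = 2)
    (x : VV sg) (i : ℕ) (hi : i < A.len x) : ∃ t : (H × Fin 10) ⊕ (YY sg × Fin 2), EUL_arc t = x ∧ EUL_idx t = i := by
  rcases x with h | y
  · rw [h1] at hi
    exact ⟨Sum.inl (h, ⟨i, hi⟩), rfl, rfl⟩
  · rw [h2] at hi
    exact ⟨Sum.inr (y, ⟨i, hi⟩), rfl, rfl⟩

/-- rays -/
def EUL_ray (A : ArcFamily (VV sg)) (h1 : ∀ h, A.len (Sum.inl h) = 10) (h2 : ∀ y, A.len (Sum.inr y) = 2) :
    (H × Fin 9 × Bool) ⊕ (YY sg × Bool) → A.Ray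
  | Sum.inl (h, i, true) => ⟨Sum.inl h, i, true, by
      rw [h1]
      change (i : ℕ) + 1 < 10 ∧ 1 ≤ (i : ℕ) + 1
      have := i.2
      omega⟩
  | Sum.inl (h, i, false) => ⟨Sum.inl h, i + 1, false, by
      rw [h1]
      change (i : ℕ) + 1 + 0 < 10 ∧ 1 ≤ (i : ℕ) + 1 + 0
      have := i.2
      omega⟩
  | Sum.inr (y, true) => ⟨Sum.inr y, 0, true, by
      rw [h2]
      decide⟩
  | Sum.inr (y, false) => ⟨Sum.inr y, 1, false, by
      rw [h2]
      decide⟩

theorem EUL_ray_inj (A : ArcFamily (VV sg)) (h1 : ∀ h, A.len (Sum.inl h) = 10) (h2 : ∀ y, A.len (Sum.inr y) = 2) :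
    Function.Injective (EUL_ray A h1 h2) := by
  intro a b hab
  have hx := congrArg ArcFamily.Ray.x hab
  have hi := congrArg ArcFamily.Ray.i hab
  have hb := congrArg ArcFamily.Ray.b hab
  rcases a with ⟨h, i, c⟩ | ⟨y, c⟩ <;> rcases b with ⟨h', i', c'⟩ | ⟨y', c'⟩ <;> cases c <;> cases c' <;>
    simp only [EUL_ray] at hx hi hb <;> simp_all [Fin.ext_iff]

end

theorem EUL (hDIV : DIV_stmt) : EUL_stmt := by
  intro H _ _ s sg hG A pos yp σ hP hσ hF
  classical
  obtain ⟨k, hk⟩ := hDIV H s sg hG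
  haveI : Finite A.Ray := inferInstance
  have hray : 18 * Nat.card H + 2 * Nat.card (YY sg) ≤ Nat.card A.Ray := by
    have h := Nat.card_le_card_of_injective _ (EUL_ray_inj A hP.lenH hP.lenY)
    rw [Nat.card_sum, Nat.card_prod, Nat.card_prod, Nat.card_prod] at h
    simp only [Nat.card_eq_fintype_card, Fintype.card_fin, Fintype.card_bool] at h ⊢
    omega
  have hcyc : 2 * cyc σ ≤ 10 * Nat.card H + 2 * Nat.card (YY sg) := by
    have hex : ∀ q : Quotient (Perm.SameCycle.setoid σ), ∃ t t' : (H × Fin 10) ⊕ (YY sg × Fin 2),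
        EUL_arc t = q.out.x ∧ A.pt (EUL_arc t) (EUL_idx t) = q.out.p ∧ EUL_arc t' ≠ q.out.x ∧
        A.pt (EUL_arc t') (EUL_idx t') = q.out.p := by
      intro q
      obtain ⟨t, ht1, ht2⟩ := EUL_lift A hP.lenH hP.lenY q.out.x q.out.i (ray_lt _)
      obtain ⟨y, j, hj, hy, hp⟩ := A.common q.out.x q.out.i (ray_lt _)
      obtain ⟨t', ht1', ht2'⟩ := EUL_lift A hP.lenH hP.lenY y j hj
      refine ⟨t, t', ht1, ?_, ?_, ?_⟩
      · rw [ht1, ht2]
        rfl
      · rw [ht1']
        exact hy
      · rw [ht1', ht2']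
        exact hp
    choose t t' h1 h2 h3 h4 using hex
    have hq : ∀ q q' : Quotient (Perm.SameCycle.setoid σ), q.out.p = q'.out.p → q = q' := by
      intro q q' h
      rw [← Quotient.out_eq q, ← Quotient.out_eq q']
      exact Quotient.sound ((hσ _ _).2 h)
    have hinj : Function.Injective (fun z : Quotient (Perm.SameCycle.setoid σ) × Bool => if z.2 then t z.1 else t' z.1) := by
      rintro ⟨q, c⟩ ⟨q', c'⟩ h
      have hpp : ∀ (q : Quotient (Perm.SameCycle.setoid σ)) (c : Bool),
          A.pt (EUL_arc (if c then t q else t' q)) (EUL_idx (if c then t q else t' q)) = q.out.p := by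
        intro q c
        cases c
        · exact h4 q
        · exact h2 q
      have hqq : q = q' := by
        apply hq
        have h5 := hpp q c
        have h6 := hpp q' c'
        have h7 : (if c = true then t q else t' q) = (if c' = true then t q' else t' q') := h
        rw [h7] at h5
        exact h5.symm.trans h6
      subst hqq
      have h7 : (if c = true then t q else t' q) = (if c' = true then t q else t' q) := h
      cases c <;> cases c'
      · rfl
      · exfalso
        have h8 : t' q = t q := h7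
        exact h3 q (by rw [h8]; exact h1 q)
      · exfalso
        have h8 : t q = t' q := h7
        exact h3 q (by rw [← h8]; exact h1 q)
      · rfl
    have h := Nat.card_le_card_of_injective _ hinj
    rw [Nat.card_sum, Nat.card_prod, Nat.card_prod, Nat.card_prod] at h
    have hc : cyc σ = Nat.card (Quotient (Perm.SameCycle.setoid σ)) := rfl
    rw [hc]
    simp only [Nat.card_eq_fintype_card (α := Fin 10), Nat.card_eq_fintype_card (α := Fin 2),
      Nat.card_eq_fintype_card (α := Bool), Fintype.card_fin, Fintype.card_bool] at h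
    omega
  have hcomp : 1 ≤ comps σ A.flip := by
    unfold comps
    rw [Nat.one_le_iff_ne_zero, ← Nat.pos_iff_ne_zero, Nat.card_pos_iff]
    refine ⟨⟨Quotient.mk _ (EUL_ray A hP.lenH hP.lenY (Sum.inl (1, 0, true)))⟩, ?_⟩
    exact Quotient.finite _
  unfold Fits at hF
  have hn : Nat.card H / 8 = k := by omega
  rw [hn] at hF
  omega

end Pool.Agent.NTA
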